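import Pool.Agent.Lib.MP_513915_al.Main

/-!
The generic free basis property does not pass from a subgroup of finite index to the whole group.
-/

namespace Pool.Agent.Results.MP_513915_al.Counterexample

open Pool.Agent.Lib.MP_513915_al

theorem result : ∃ (G : Type) (_ : Group G) (H : Subgroup G), Group.FG G ∧ H.FiniteIndex ∧
    GFBP H ∧ ¬ GFBP G ∧
    ∀ (S : Type) [Finite S] (φ : S → G), IsAlphabet φ → ¬ GenericFree φ 1 := by
  obtain ⟨G, _, H, h1, h2, h3, h4⟩ := main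
  refine ⟨G, inferInstance, H, h1, h2, h3, fun h => ?_, h4⟩
  obtain ⟨A, hA, hf⟩ := (Group.fg_iff).1 h1
  have : Finite (A ∪ A⁻¹ : Set G) := hf.union hf.inv
  have h5 : IsAlphabet (Subtype.val : (A ∪ A⁻¹ : Set G) → G) := by
    refine ⟨top_le_iff.1 (hA ▸ Subgroup.closure_mono fun a ha => ⟨⟨a, Or.inl ha⟩, rfl⟩), ?_⟩
    rintro ⟨a, ha | ha⟩
    · exact ⟨⟨a⁻¹, Or.inr (by simpa using ha)⟩, rfl⟩
    · exact ⟨⟨a⁻¹, Or.inl ha⟩, rfl⟩
  exact h4 _ _ h5 (h _ _ h5 1 le_rfl)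

end Pool.Agent.Results.MP_513915_al.Counterexample
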